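import Pool.Agent.helper8.GD.Spec

/-! # Project GD, module SL1: the coefficients of Selberg's weight -/

set_option autoImplicit false

namespace GD

open Finset ArithmeticFunction

theorem SL1_pr_le {D K : Finset ℕ} (hDK : D ⊆ K) (h : ∀ l ∈ K, 1 ≤ l) : pr D ≤ pr K :=
  Finset.prod_le_prod_of_subset_of_one_le' hDK fun l hl _ => h l hl

theorem SL1_hh_nonneg {K : Finset ℕ} (h : ∀ l ∈ K, 7 ≤ l) : 0 ≤ hh K := by
  refine Finset.prod_nonneg fun l hl => ?_
  have : (7 : ℝ) ≤ l := by exact_mod_cast h l hl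
  apply div_nonneg (by norm_num)
  linarith

theorem SL1_ch (K A : Finset ℕ) :
    ch K A = ∑ D ∈ K.powerset with D ⊆ A, (-1 : ℝ) ^ #D * ((pr D : ℝ) / 2 ^ #D) := by
  have h1 : ch K A = ∏ l ∈ K, (1 + if l ∈ A then -((l : ℝ) / 2) else 0) := by
    unfold ch
    refine Finset.prod_congr rfl fun l _ => ?_
    split_ifs
    · ring
    · ring
  rw [h1, Finset.prod_one_add, Finset.sum_filter]
  refine Finset.sum_congr rfl fun D _ => ?_
  split_ifs with hD
  · have : ∀ l ∈ D, (if l ∈ A then -((l : ℝ) / 2) else 0) = (-1) * ((l : ℝ) / 2) := by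
      intro l hl
      rw [if_pos (hD hl)]
      ring
    rw [Finset.prod_congr rfl this, Finset.prod_mul_distrib, Finset.prod_const,
      Finset.prod_div_distrib, Finset.prod_const]
    unfold pr
    push_cast
    rfl
  · rw [Finset.not_subset] at hD
    obtain ⟨l, hl, hlA⟩ := hD
    exact Finset.prod_eq_zero hl (if_neg hlA)

theorem SL1_Gs {Q : Finset ℕ} {R : ℝ} (hQ : ∀ l ∈ Q, 7 ≤ l) {D : Finset ℕ} (hD : D ⊆ Q) :
    ∑ K ∈ Sub Q R with D ⊆ K, hh K ≤ hh D * Gs Q R := by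
  have hDn : 0 ≤ hh D := SL1_hh_nonneg fun l hl => hQ l (hD hl)
  have h1 : ∑ K ∈ Sub Q R with D ⊆ K, hh K = hh D * ∑ K ∈ Sub Q R with D ⊆ K, hh (K \ D) := by
    rw [Finset.mul_sum]
    refine Finset.sum_congr rfl fun K hK => ?_
    rw [Finset.mem_filter] at hK
    unfold hh
    rw [mul_comm, Finset.prod_sdiff hK.2]
  rw [h1]
  refine mul_le_mul_of_nonneg_left ?_ hDn
  have h2 : ∑ K ∈ Sub Q R with D ⊆ K, hh (K \ D) =
      ∑ K ∈ ((Sub Q R).filter fun K => D ⊆ K).image (fun K => K \ D), hh K := by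
    rw [Finset.sum_image]
    intro K hK K' hK' h
    rw [Finset.mem_coe, Finset.mem_filter] at hK hK'
    simp only at h
    rw [← Finset.sdiff_union_of_subset hK.2, ← Finset.sdiff_union_of_subset hK'.2, h]
  rw [h2]
  unfold Gs
  refine Finset.sum_le_sum_of_subset_of_nonneg ?_ ?_
  · intro K hK
    rw [Finset.mem_image] at hK
    obtain ⟨K', hK', rfl⟩ := hK
    rw [Finset.mem_filter] at hK'
    unfold Sub at hK' ⊢
    rw [Finset.mem_filter, Finset.mem_powerset] at hK' ⊢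
    obtain ⟨⟨h3, h4⟩, _⟩ := hK'
    refine ⟨Finset.sdiff_subset.trans h3, le_trans ?_ h4⟩
    exact_mod_cast SL1_pr_le Finset.sdiff_subset fun l hl => le_trans (by norm_num) (hQ l (h3 hl))
  · intro K hK _
    unfold Sub at hK
    rw [Finset.mem_filter, Finset.mem_powerset] at hK
    exact SL1_hh_nonneg fun l hl => hQ l (hK.1 hl)

theorem SL1_bound {D : Finset ℕ} (h : ∀ l ∈ D, 7 ≤ l) :
    ((pr D : ℝ) / 2 ^ #D) * hh D ≤ 2 ^ #D := by
  unfold pr hh
  push_cast
  rw [← Finset.prod_const, ← Finset.prod_div_distrib, ← Finset.prod_mul_distrib]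
  refine Finset.prod_le_prod (fun l hl => ?_) fun l hl => ?_
  · have : (7 : ℝ) ≤ l := by exact_mod_cast h l hl
    have h2 : 0 < (l : ℝ) - 2 := by linarith
    positivity
  · have : (7 : ℝ) ≤ l := by exact_mod_cast h l hl
    have h2 : 0 < (l : ℝ) - 2 := by linarith
    rw [div_mul_div_comm, div_le_iff₀ (by positivity)]
    nlinarith

theorem SL1 : SL1_stmt := by
  intro Q R hQ hR
  have hQ7 : ∀ l ∈ Q, 7 ≤ l := fun l hl => (hQ l hl).2
  refine ⟨fun D => (-1 : ℝ) ^ #D * ((pr D : ℝ) / 2 ^ #D) * ∑ K ∈ Sub Q R with D ⊆ K, hh K, ?_, ?_⟩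
  · intro D hD
    rw [Finset.mem_powerset] at hD
    have h7 : ∀ l ∈ D, 7 ≤ l := fun l hl => hQ7 l (hD hl)
    have hS0 : 0 ≤ ∑ K ∈ Sub Q R with D ⊆ K, hh K := by
      refine Finset.sum_nonneg fun K hK => ?_
      rw [Finset.mem_filter] at hK
      unfold Sub at hK
      rw [Finset.mem_filter, Finset.mem_powerset] at hK
      exact SL1_hh_nonneg fun l hl => hQ7 l (hK.1.1 hl)
    have hG0 : 0 ≤ Gs Q R := by
      refine Finset.sum_nonneg fun K hK => ?_
      unfold Sub at hK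
      rw [Finset.mem_filter, Finset.mem_powerset] at hK
      exact SL1_hh_nonneg fun l hl => hQ7 l (hK.1 hl)
    constructor
    · show |(-1 : ℝ) ^ #D * ((pr D : ℝ) / 2 ^ #D) * ∑ K ∈ Sub Q R with D ⊆ K, hh K| ≤ _
      rw [abs_mul, abs_mul, abs_pow, abs_neg, abs_one, one_pow, one_mul,
        abs_of_nonneg (by positivity : (0 : ℝ) ≤ (pr D : ℝ) / 2 ^ #D), abs_of_nonneg hS0]
      calc ((pr D : ℝ) / 2 ^ #D) * ∑ K ∈ Sub Q R with D ⊆ K, hh K
          ≤ ((pr D : ℝ) / 2 ^ #D) * (hh D * Gs Q R) :=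
            mul_le_mul_of_nonneg_left (SL1_Gs hQ7 hD) (by positivity)
        _ = (((pr D : ℝ) / 2 ^ #D) * hh D) * Gs Q R := by ring
        _ ≤ 2 ^ #D * Gs Q R := mul_le_mul_of_nonneg_right (SL1_bound h7) hG0
        _ = _ := by push_cast; rfl
    · intro hne
      have : ∃ K ∈ (Sub Q R).filter fun K => D ⊆ K, hh K ≠ 0 := by
        by_contra hcon
        push Not at hcon
        apply hne
        show (-1 : ℝ) ^ #D * ((pr D : ℝ) / 2 ^ #D) * ∑ K ∈ Sub Q R with D ⊆ K, hh K = 0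
        rw [Finset.sum_eq_zero hcon, mul_zero]
      obtain ⟨K, hK, _⟩ := this
      rw [Finset.mem_filter] at hK
      unfold Sub at hK
      rw [Finset.mem_filter, Finset.mem_powerset] at hK
      refine le_trans ?_ hK.1.2
      exact_mod_cast SL1_pr_le hK.2 fun l hl => le_trans (by norm_num) (hQ7 l (hK.1.1 hl))
  · intro A hA
    unfold Sg
    simp only [SL1_ch, Finset.sum_mul, Finset.mul_sum]
    rw [Finset.sum_comm' (s := Sub Q R) (t := fun K => K.powerset.filter fun D => D ⊆ A)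
      (t' := A.powerset) (s' := fun D => (Sub Q R).filter fun K => D ⊆ K)]
    intro K D
    simp only [Finset.mem_filter, Finset.mem_powerset]
    tauto

end GD
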